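import Mathlib

/-!
# The greedy set avoiding `5w + 2x = 5y + 2z`

With `a_i = ⌈(5 + 7 ∑_{j<i} a_j)/2⌉` (so `a_1 = 3`, `a_2 = 13`, `a_3 = 59`, …) and `A` the set of finite
sums of distinct terms `a_i`, the greedy set is `{5x + y : x ∈ A, 0 ≤ y ≤ 4}`. With the floor in place
of the ceiling (as printed in the problem) this is false.
-/

set_option autoImplicit false

open Finset

namespace Pool.Agent.Results.MP_cb51c9_co.Greedy52

/-- `S` is free of `5w + 2x = 5y + 2z`: there are only trivial solutions in `S`. -/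
def Free (S : Set ℕ) : Prop :=
  ∀ w ∈ S, ∀ x ∈ S, ∀ y ∈ S, ∀ z ∈ S, 5 * w + 2 * x = 5 * y + 2 * z → w = y ∧ x = z

/-- `g` is the greedy sequence: `g 0 = 0` and `g (i+1)` is the least integer `m > g i` such that
`{g 0, …, g i, m}` is free of `5w + 2x = 5y + 2z`. -/
def IsGreedySeq (g : ℕ → ℕ) : Prop :=
  g 0 = 0 ∧ ∀ i, IsLeast {m | g i < m ∧ Free (insert m (g '' Set.Iic i))} (g (i + 1))

/-- The sequence `a_0 = 0`, `a_i = half (5 + 7 ∑_{j<i} a_j)`, where `half` is a way of rounding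
one half of an integer. -/
def a (half : ℕ → ℕ) : ℕ → ℕ
  | 0 => 0
  | i + 1 => half (5 + 7 * ∑ j : Fin (i + 1), a half j.1)
termination_by i => i
decreasing_by exact j.2

/-- Rounding down: `n ↦ ⌊n/2⌋`. -/
def down (n : ℕ) : ℕ := n / 2

/-- Rounding up: `n ↦ ⌈n/2⌉`. -/
def up (n : ℕ) : ℕ := (n + 1) / 2

/-- The set of all finite sums of distinct terms `a_i`. -/
def A (half : ℕ → ℕ) : Set ℕ := {n | ∃ s : Finset ℕ, n = ∑ i ∈ s, a half i}

/-- The set `{5x + y : x ∈ A, 0 ≤ y ≤ 4}`. -/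
def T (half : ℕ → ℕ) : Set ℕ := {n | ∃ x ∈ A half, ∃ y, y ≤ 4 ∧ n = 5 * x + y}

/-! ### The corrected sequence -/

/-- partial sums -/
def S (i : ℕ) : ℕ := ∑ j ∈ range (i + 1), a up j

theorem a_zero (half : ℕ → ℕ) : a half 0 = 0 := by rw [a]

theorem a_succ (i : ℕ) : a up (i + 1) = (6 + 7 * S i) / 2 := by
  rw [a]
  show (5 + 7 * ∑ j : Fin (i + 1), a up j.1 + 1) / 2 = (6 + 7 * S i) / 2
  unfold S
  rw [Finset.sum_range]
  congr 1
  ring

theorem S_zero : S 0 = 0 := by simp [S, a_zero]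

theorem S_succ (i : ℕ) : S (i + 1) = S i + a up (i + 1) := by
  unfold S
  rw [Finset.sum_range_succ]

/-- subset sums of `a_0, …, a_i` -/
def inA : ℕ → ℕ → Prop
  | 0, n => n = 0
  | i + 1, n => inA i n ∨ ∃ m, inA i m ∧ n = m + a up (i + 1)

theorem inA_zero (i : ℕ) : inA i 0 := by
  induction i with
  | zero => rfl
  | succ i ih => exact Or.inl ih

theorem inA_mono {i k n : ℕ} (h : i ≤ k) (hn : inA i n) : inA k n := by
  induction h with
  | refl => exact hn
  | step _ ih => exact Or.inl ih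

theorem inA_le {i n : ℕ} (h : inA i n) : n ≤ S i := by
  induction i generalizing n with
  | zero => rw [show n = 0 from h]; exact Nat.zero_le _
  | succ i ih =>
    rw [S_succ]
    rcases h with h | ⟨m, h, rfl⟩
    · have := ih h; omega
    · have := ih h; omega

theorem inA_iff (i n : ℕ) : inA i n ↔ ∃ s ⊆ range (i + 1), n = ∑ j ∈ s, a up j := by
  induction i generalizing n with
  | zero =>
    constructor
    · intro h
      exact ⟨∅, by simp, (show n = 0 from h).trans (by simp)⟩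
    · rintro ⟨s, hs, rfl⟩
      show ∑ j ∈ s, a up j = 0
      apply Finset.sum_eq_zero
      intro j hj
      have := Finset.mem_range.1 (hs hj)
      have : j = 0 := by omega
      rw [this, a_zero]
  | succ i ih =>
    constructor
    · rintro (h | ⟨m, h, rfl⟩)
      · obtain ⟨s, hs, rfl⟩ := (ih n).1 h
        exact ⟨s, hs.trans (Finset.range_mono (by omega)), rfl⟩
      · obtain ⟨s, hs, rfl⟩ := (ih m).1 h
        have hn : i + 1 ∉ s := fun hc => by
          have := Finset.mem_range.1 (hs hc)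
          omega
        refine ⟨insert (i + 1) s, ?_, ?_⟩
        · intro j hj
          rcases Finset.mem_insert.1 hj with rfl | hj
          · exact Finset.mem_range.2 (by omega)
          · have := Finset.mem_range.1 (hs hj)
            exact Finset.mem_range.2 (by omega)
        · rw [Finset.sum_insert hn, add_comm]
    · rintro ⟨s, hs, rfl⟩
      by_cases h : i + 1 ∈ s
      · right
        refine ⟨∑ j ∈ s.erase (i + 1), a up j, (ih _).2 ⟨_, ?_, rfl⟩, ?_⟩
        · intro j hj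
          have h1 := Finset.mem_erase.1 hj
          have h2 := Finset.mem_range.1 (hs h1.2)
          exact Finset.mem_range.2 (by omega)
        · exact (Finset.sum_erase_add s _ h).symm
      · left
        refine (ih _).2 ⟨s, ?_, rfl⟩
        intro j hj
        have h2 := Finset.mem_range.1 (hs hj)
        have h3 : j ≠ i + 1 := fun hc => h (hc ▸ hj)
        exact Finset.mem_range.2 (by omega)

theorem mem_A (n : ℕ) : n ∈ A up ↔ ∃ i, inA i n := by
  constructor
  · rintro ⟨s, rfl⟩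
    obtain ⟨N, hN⟩ := s.exists_nat_subset_range
    exact ⟨N, (inA_iff _ _).2 ⟨s, hN.trans (Finset.range_mono (by omega)), rfl⟩⟩
  · rintro ⟨i, h⟩
    obtain ⟨s, -, rfl⟩ := (inA_iff _ _).1 h
    exact ⟨s, rfl⟩

/-- Only trivial solutions at level `i`. -/
theorem level_free (i : ℕ) : ∀ W X Y Z : ℕ, inA i W → inA i X → inA i Y → inA i Z →
    2 * Z + 5 * W ≤ 2 * X + 5 * Y + 4 → 2 * X + 5 * Y ≤ 2 * Z + 5 * W + 4 → X = Z ∧ W = Y := by
  induction i with
  | zero =>
    intro W X Y Z hW hX hY hZ _ _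
    rw [show W = 0 from hW, show X = 0 from hX, show Y = 0 from hY, show Z = 0 from hZ]
    exact ⟨rfl, rfl⟩
  | succ i ih =>
    intro W X Y Z hW hX hY hZ h1 h2
    have ha : 5 + 7 * S i ≤ 2 * a up (i + 1) := by rw [a_succ]; omega
    have dec : ∀ n, inA (i + 1) n → ∃ c m, c ≤ 1 ∧ inA i m ∧ n = m + c * a up (i + 1) := by
      rintro n (h | ⟨m, h, rfl⟩)
      · exact ⟨0, n, by omega, h, by ring⟩
      · exact ⟨1, m, by omega, h, by ring⟩
    obtain ⟨cw, W', hcw, hW', rfl⟩ := dec W hW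
    obtain ⟨cx, X', hcx, hX', rfl⟩ := dec X hX
    obtain ⟨cy, Y', hcy, hY', rfl⟩ := dec Y hY
    obtain ⟨cz, Z', hcz, hZ', rfl⟩ := dec Z hZ
    have bW := inA_le hW'
    have bX := inA_le hX'
    have bY := inA_le hY'
    have bZ := inA_le hZ'
    have hcc : cx = cz ∧ cw = cy := by
      interval_cases cw <;> interval_cases cx <;> interval_cases cy <;> interval_cases cz <;>
        omega
    obtain ⟨rfl, rfl⟩ := hcc
    have := ih W' X' Y' Z' hW' hX' hY' hZ' (by omega) (by omega)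
    obtain ⟨rfl, rfl⟩ := this
    exact ⟨rfl, rfl⟩

/-- Covering: every integer `t` with `-5 S - 4 ≤ t ≤ 7 S + 4` is within `4` of a number of the form
`5 (Y - W) + 2 X`. -/
theorem cover (i : ℕ) : ∀ t : ℤ, -5 * (S i : ℤ) - 4 ≤ t → t ≤ 7 * (S i : ℤ) + 4 →
    ∃ W X Y : ℕ, inA i W ∧ inA i X ∧ inA i Y ∧
      t - 4 ≤ 5 * ((Y : ℤ) - W) + 2 * X ∧ 5 * ((Y : ℤ) - W) + 2 * X ≤ t + 4 := by
  induction i with
  | zero =>
    intro t h1 h2
    rw [S_zero] at h1 h2
    exact ⟨0, 0, 0, rfl, rfl, rfl, by push_cast at *; omega, by push_cast at *; omega⟩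
  | succ i ih =>
    intro t h1 h2
    rw [S_succ] at h1 h2
    push_cast at h1 h2
    have ha : 2 * a up (i + 1) ≤ 6 + 7 * S i := by rw [a_succ]; omega
    have ha' : 2 * (a up (i + 1) : ℤ) ≤ 6 + 7 * (S i : ℤ) := by exact_mod_cast ha
    have hS : 0 ≤ (S i : ℤ) := Int.natCast_nonneg _
    set b : ℤ := (a up (i + 1) : ℤ) with hb
    -- choose the shift `5 d + 2 e`
    have key : ∃ d e f : ℕ, d ≤ 1 ∧ e ≤ 1 ∧ f ≤ 1 ∧
        -5 * (S i : ℤ) - 4 ≤ t - (5 * ((f : ℤ) - d) + 2 * e) * b ∧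
        t - (5 * ((f : ℤ) - d) + 2 * e) * b ≤ 7 * (S i : ℤ) + 4 := by
      by_cases c1 : t ≤ -5 * b + 7 * (S i : ℤ) + 4
      · exact ⟨1, 0, 0, by omega, by omega, by omega, by push_cast; linarith, by push_cast; linarith⟩
      by_cases c2 : t ≤ -3 * b + 7 * (S i : ℤ) + 4
      · exact ⟨1, 1, 0, by omega, by omega, by omega, by push_cast; omega, by push_cast; omega⟩
      by_cases c3 : t ≤ 7 * (S i : ℤ) + 4
      · exact ⟨0, 0, 0, by omega, by omega, by omega, by push_cast; omega, by push_cast; omega⟩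
      by_cases c4 : t ≤ 2 * b + 7 * (S i : ℤ) + 4
      · exact ⟨0, 1, 0, by omega, by omega, by omega, by push_cast; omega, by push_cast; omega⟩
      by_cases c5 : t ≤ 5 * b + 7 * (S i : ℤ) + 4
      · exact ⟨0, 0, 1, by omega, by omega, by omega, by push_cast; omega, by push_cast; omega⟩
      · exact ⟨0, 1, 1, by omega, by omega, by omega, by push_cast; omega, by push_cast; omega⟩
    obtain ⟨d, e, f, hd, he, hf, k1, k2⟩ := key
    obtain ⟨W, X, Y, hW, hX, hY, h3, h4⟩ := ih _ k1 k2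
    have up1 : ∀ c n, c ≤ 1 → inA i n → inA (i + 1) (n + c * a up (i + 1)) := by
      intro c n hc hn
      have : c = 0 ∨ c = 1 := by omega
      rcases this with rfl | rfl
      · left; simpa using hn
      · right; exact ⟨n, hn, by ring⟩
    refine ⟨W + d * a up (i + 1), X + e * a up (i + 1), Y + f * a up (i + 1),
      up1 d W hd hW, up1 e X he hX, up1 f Y hf hY, ?_, ?_⟩
    · push_cast; rw [← hb]; linarith
    · push_cast; rw [← hb]; linarith

/-- Every `q < a_{i+1}` not in `A_i` is blocked by smaller elements of `A_i`. -/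
theorem blocked (i : ℕ) : ∀ q, q < a up (i + 1) → ¬ inA i q →
    ∃ W X Y : ℕ, inA i W ∧ inA i X ∧ inA i Y ∧ W < q ∧ X < q ∧ Y < q ∧
      2 * q + 5 * W ≤ 2 * X + 5 * Y + 4 ∧ 2 * X + 5 * Y ≤ 2 * q + 5 * W + 4 := by
  -- the case of large `q`
  have big : ∀ i q, q < a up (i + 1) → S i < q →
      ∃ W X Y : ℕ, inA i W ∧ inA i X ∧ inA i Y ∧ W < q ∧ X < q ∧ Y < q ∧
      2 * q + 5 * W ≤ 2 * X + 5 * Y + 4 ∧ 2 * X + 5 * Y ≤ 2 * q + 5 * W + 4 := by
    intro i q h1 h2
    have ha : 2 * a up (i + 1) ≤ 6 + 7 * S i := by rw [a_succ]; omega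
    obtain ⟨W, X, Y, hW, hX, hY, h3, h4⟩ := cover i (2 * q) (by omega) (by omega)
    have bW := inA_le hW
    have bX := inA_le hX
    have bY := inA_le hY
    exact ⟨W, X, Y, hW, hX, hY, by omega, by omega, by omega, by omega, by omega⟩
  induction i with
  | zero =>
    intro q h1 h2
    apply big 0 q h1
    rw [S_zero]
    exact Nat.pos_of_ne_zero h2
  | succ i ih =>
    intro q h1 h2
    by_cases h3 : q < a up (i + 1)
    · obtain ⟨W, X, Y, hW, hX, hY, r⟩ := ih q h3 (fun h => h2 (Or.inl h))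
      exact ⟨W, X, Y, Or.inl hW, Or.inl hX, Or.inl hY, r⟩
    by_cases h4 : q ≤ S (i + 1)
    · rw [S_succ] at h4
      have ha : 5 + 7 * S i ≤ 2 * a up (i + 1) := by rw [a_succ]; omega
      obtain ⟨W, X, Y, hW, hX, hY, r1, r2, r3, r4, r5⟩ := ih (q - a up (i + 1)) (by omega)
        (fun h => h2 (Or.inr ⟨_, h, by omega⟩))
      exact ⟨W, X + a up (i + 1), Y, Or.inl hW, Or.inr ⟨X, hX, rfl⟩, Or.inl hY, by omega, by omega,
        by omega, by omega, by omega⟩
    · exact big (i + 1) q h1 (by omega)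

theorem lt_a (n : ℕ) : n < a up (n + 1) := by
  induction n with
  | zero => rw [a_succ]; omega
  | succ n ih =>
    have h1 : a up (n + 2) = (6 + 7 * S (n + 1)) / 2 := a_succ (n + 1)
    show n + 1 < a up (n + 2)
    rw [h1, S_succ]
    omega

theorem T_free : Free (T up) := by
  rintro _ ⟨W, hW, w, hw, rfl⟩ _ ⟨X, hX, x, hx, rfl⟩ _ ⟨Y, hY, y, hy, rfl⟩ _ ⟨Z, hZ, z, hz, rfl⟩ h
  obtain ⟨i1, hW⟩ := (mem_A W).1 hW
  obtain ⟨i2, hX⟩ := (mem_A X).1 hX
  obtain ⟨i3, hY⟩ := (mem_A Y).1 hY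
  obtain ⟨i4, hZ⟩ := (mem_A Z).1 hZ
  set i := i1 + i2 + i3 + i4
  have h5 : x = z := by omega
  have := level_free i W Z Y X (inA_mono (by omega) hW) (inA_mono (by omega) hZ)
    (inA_mono (by omega) hY) (inA_mono (by omega) hX) (by omega) (by omega)
  omega

theorem not_free {n : ℕ} (hn : n ∉ T up) : ¬ Free (insert n {t | t ∈ T up ∧ t < n}) := by
  intro hF
  have hq : n / 5 ∉ A up := fun h => hn ⟨n / 5, h, n % 5, by omega, by omega⟩
  have hq' : ¬ inA (n / 5) (n / 5) := fun h => hq ((mem_A _).2 ⟨_, h⟩)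
  obtain ⟨W, X, Y, hW, hX, hY, h1, h2, h3, h4, h5⟩ := blocked (n / 5) (n / 5) (lt_a _) hq'
  have key : ∃ w y, w ≤ 4 ∧ y ≤ 4 ∧ 2 * (n / 5) + 5 * W + w = 2 * X + 5 * Y + y := by
    rcases Nat.le_total (2 * (n / 5) + 5 * W) (2 * X + 5 * Y) with h | h
    · exact ⟨2 * X + 5 * Y - (2 * (n / 5) + 5 * W), 0, by omega, by omega, by omega⟩
    · exact ⟨0, 2 * (n / 5) + 5 * W - (2 * X + 5 * Y), by omega, by omega, by omega⟩
  obtain ⟨w, y, hw, hy, hwy⟩ := key
  have mem : ∀ K k, inA (n / 5) K → K < n / 5 → k ≤ 4 →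
      5 * K + k ∈ insert n {t | t ∈ T up ∧ t < n} := by
    intro K k hK hlt hk
    exact Set.mem_insert_of_mem _ ⟨⟨K, (mem_A K).2 ⟨_, hK⟩, k, hk, rfl⟩, by omega⟩
  have := hF (5 * W + w) (mem W w hW h1 hw) n (Set.mem_insert _ _) (5 * Y + y)
    (mem Y y hY h3 hy) (5 * X + n % 5) (mem X (n % 5) hX h2 (by omega)) (by omega)
  omega

theorem Free.mono {U V : Set ℕ} (h : Free V) (hUV : U ⊆ V) : Free U :=
  fun w hw x hx y hy z hz => h w (hUV hw) x (hUV hx) y (hUV hy) z (hUV hz)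

theorem zero_mem : (0 : ℕ) ∈ T up := ⟨0, (mem_A 0).2 ⟨0, rfl⟩, 0, by omega, rfl⟩

theorem a_mem (i : ℕ) : 5 * a up i ∈ T up := ⟨a up i, ⟨{i}, by simp⟩, 0, by omega, rfl⟩

theorem T_infinite : (T up).Infinite := by
  rw [Set.infinite_iff_exists_gt]
  intro n
  exact ⟨5 * a up (n + 1), a_mem _, by have := lt_a n; omega⟩

/-- Any greedy sequence enumerates `T up`. -/
theorem range_eq {g : ℕ → ℕ} (hg : IsGreedySeq g) : Set.range g = T up := by
  obtain ⟨h0, hs⟩ := hg
  have key : ∀ i, g '' Set.Iic i = {t | t ∈ T up ∧ t ≤ g i} := by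
    intro i
    induction i with
    | zero =>
      ext t
      constructor
      · rintro ⟨j, hj, rfl⟩
        have : j = 0 := Nat.le_zero.1 hj
        subst this
        rw [h0]
        exact ⟨zero_mem, le_rfl⟩
      · rintro ⟨-, ht⟩
        refine ⟨0, Set.mem_Iic.2 le_rfl, ?_⟩
        rw [h0] at ht ⊢
        omega
    | succ i ih =>
      obtain ⟨⟨hlt, hfree⟩, hleast⟩ := hs i
      rw [ih] at hfree
      -- no element of `T` in between
      have gap : ∀ t ∈ T up, g i < t → g (i + 1) ≤ t := by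
        intro t ht hit
        apply hleast
        refine ⟨hit, ?_⟩
        rw [ih]
        apply T_free.mono
        intro u hu
        rcases hu with rfl | hu
        · exact ht
        · exact hu.1
      have hmem : g (i + 1) ∈ T up := by
        by_contra hn
        apply not_free hn
        apply hfree.mono
        intro u hu
        rcases hu with rfl | ⟨hu1, hu2⟩
        · exact Set.mem_insert _ _
        · refine Set.mem_insert_of_mem _ ⟨hu1, ?_⟩
          by_contra hc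
          have := gap u hu1 (by omega)
          omega
      ext t
      constructor
      · rintro ⟨j, hj, rfl⟩
        rcases Nat.lt_or_ge i j with hij | hij
        · have : j = i + 1 := le_antisymm hj hij
          subst this
          exact ⟨hmem, le_rfl⟩
        · have h1 : g j ∈ g '' Set.Iic i := ⟨j, hij, rfl⟩
          rw [ih] at h1
          exact ⟨h1.1, h1.2.trans hlt.le⟩
      · rintro ⟨ht1, ht2⟩
        by_cases hc : t ≤ g i
        · have h1 : t ∈ g '' Set.Iic i := by rw [ih]; exact ⟨ht1, hc⟩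
          obtain ⟨j, hj, rfl⟩ := h1
          exact ⟨j, (show j ≤ i + 1 from Nat.le_succ_of_le hj), rfl⟩
        · have := gap t ht1 (by omega)
          exact ⟨i + 1, Set.mem_Iic.2 le_rfl, by omega⟩
  have hmono : StrictMono g := strictMono_nat_of_lt_succ fun i => (hs i).1.1
  ext t
  constructor
  · rintro ⟨i, rfl⟩
    have h1 : g i ∈ g '' Set.Iic i := ⟨i, Set.mem_Iic.2 le_rfl, rfl⟩
    rw [key i] at h1
    exact h1.1
  · intro ht
    have h1 : t ∈ g '' Set.Iic t := by
      rw [key t]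
      exact ⟨ht, hmono.id_le t⟩
    obtain ⟨j, -, rfl⟩ := h1
    exact ⟨j, rfl⟩

/-- The greedy sequence exists. -/
theorem exists_greedy : ∃ g, IsGreedySeq g := by
  classical
  refine ⟨Nat.nth (· ∈ T up), ?_, ?_⟩
  · rw [Nat.nth_zero]
    exact Nat.sInf_eq_zero.2 (Or.inl zero_mem)
  · intro i
    have hinf : {n | n ∈ T up}.Infinite := T_infinite
    have hmono := Nat.nth_strictMono hinf
    have hm : ∀ j, Nat.nth (· ∈ T up) j ∈ T up := fun j => Nat.nth_mem_of_infinite hinf j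
    have hsurj : ∀ t ∈ T up, ∃ j, Nat.nth (· ∈ T up) j = t := fun t ht =>
      ⟨_, Nat.nth_count (p := (· ∈ T up)) ht⟩
    refine ⟨⟨hmono (Nat.lt_succ_self i), ?_⟩, ?_⟩
    · apply T_free.mono
      intro u hu
      rcases hu with rfl | ⟨j, -, rfl⟩
      · exact hm _
      · exact hm _
    · rintro m ⟨h1, h2⟩
      by_contra hlt
      have hmT : m ∉ T up := by
        intro hmT
        obtain ⟨j, rfl⟩ := hsurj m hmT
        have h3 := hmono.lt_iff_lt.1 h1
        have h4 := hmono.lt_iff_lt.1 (not_le.1 hlt)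
        omega
      apply not_free hmT
      apply h2.mono
      intro u hu
      rcases hu with rfl | ⟨hu1, hu2⟩
      · exact Set.mem_insert _ _
      · apply Set.mem_insert_of_mem
        obtain ⟨j, rfl⟩ := hsurj u hu1
        refine ⟨j, ?_, rfl⟩
        have h4 := hmono.lt_iff_lt.1 (hu2.trans (not_le.1 hlt))
        exact Nat.lt_succ_iff.1 h4

/-- The greedy sequence exists, and its range `G` is the set `{5x + y : x ∈ A, 0 ≤ y ≤ 4}` for
`a_i = ⌈(5 + 7 ∑_{j<i} a_j)/2⌉`; it is not this set for `a_i = ⌊(5 + 7 ∑_{j<i} a_j)/2⌋`. -/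
theorem result :
    (∃ g, IsGreedySeq g) ∧
      ∀ g, IsGreedySeq g → Set.range g = T up ∧ Set.range g ≠ T down := by
  refine ⟨exists_greedy, fun g hg => ⟨range_eq hg, ?_⟩⟩
  rw [range_eq hg]
  intro h
  have h10 : (10 : ℕ) ∈ T down := by
    refine ⟨2, ⟨{1}, ?_⟩, 0, by omega, rfl⟩
    rw [Finset.sum_singleton]
    show 2 = a down 1
    rw [a]
    simp [down, a_zero]
  have h4 : (4 : ℕ) ∈ T up := ⟨0, (mem_A 0).2 ⟨0, rfl⟩, 4, by omega, rfl⟩
  rw [← h] at h10
  have := T_free 0 zero_mem 10 h10 4 h4 0 zero_mem (by norm_num)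
  omega

end Pool.Agent.Results.MP_cb51c9_co.Greedy52
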